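import Pool.Agent.H453R3.QC7

/-!
# Equality modulo the compact operators is not Borel reducible to `ℝ^ℕ / c_0`

This is the negated form of Q1 of the problem, both for `B(H)` and for the restriction to the
orthogonal projections.
-/

set_option autoImplicit false

open scoped InnerProductSpace
open Filter Topology

namespace Pool.Agent.Results.MP_ec05f5_lc.EssentialNotReducible

/-- The Borel structure on `B(H)`: the smallest one making all maps `a ↦ ⟪a ξ, η⟫` Borel. -/
noncomputable def opBorel (H : Type) [NormedAddCommGroup H] [InnerProductSpace ℂ H] :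
    MeasurableSpace (H →L[ℂ] H) :=
  ⨆ q : H × H, MeasurableSpace.comap (fun a : H →L[ℂ] H => ⟪a q.1, q.2⟫_ℂ) (borel ℂ)

/-- The orthogonal projections of `H`. -/
def Proj (H : Type) [NormedAddCommGroup H] [InnerProductSpace ℂ H] [CompleteSpace H] : Type :=
  {p : H →L[ℂ] H // IsSelfAdjoint p ∧ p * p = p}

/-- The Borel structure on the orthogonal projections, induced from `B(H)`. -/
noncomputable def projBorel (H : Type) [NormedAddCommGroup H] [InnerProductSpace ℂ H]
    [CompleteSpace H] : MeasurableSpace (Proj H) :=
  MeasurableSpace.comap Subtype.val (opBorel H)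

/-- Equality modulo the compact operators. -/
def EssEq {H : Type} [NormedAddCommGroup H] [InnerProductSpace ℂ H] (a b : H →L[ℂ] H) : Prop :=
  IsCompactOperator (a - b : H →L[ℂ] H)

/-- The relation `ℝ^ℕ / c_0`. -/
def ModNull (x y : ℕ → ℝ) : Prop := Tendsto (fun n => x n - y n) atTop (𝓝 0)

/-- On a separable infinite dimensional complex Hilbert space `H`, the relation of equality modulo
the compact operators is not Borel reducible to `ℝ^ℕ / c_0`, neither on the orthogonal projections
of `H` nor on `B(H)`. -/
theorem result (H : Type) [NormedAddCommGroup H] [InnerProductSpace ℂ H] [CompleteSpace H]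
    [TopologicalSpace.SeparableSpace H] (hH : ¬ FiniteDimensional ℂ H) :
    (¬ ∃ f : Proj H → (ℕ → ℝ), @Measurable _ _ (projBorel H) MeasurableSpace.pi f ∧
      ∀ p q : Proj H, EssEq p.1 q.1 ↔ ModNull (f p) (f q)) ∧
    ¬ ∃ f : (H →L[ℂ] H) → (ℕ → ℝ), @Measurable _ _ (opBorel H) MeasurableSpace.pi f ∧
      ∀ a b : H →L[ℂ] H, EssEq a b ↔ ModNull (f a) (f b) :=
  ⟨H453R3.QC.no_reduction_pr hH, H453R3.QC.no_reduction_all hH⟩

end Pool.Agent.Results.MP_ec05f5_lc.EssentialNotReducible
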