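import Pool.Agent.H453R3.SC5

/-!
# Equality modulo the trace class is not Borel reducible to `ℝ^ℕ / ℓ¹`

This is the negated form of Q2 of the problem, with `p = 1`.
-/

set_option autoImplicit false

open scoped InnerProductSpace

namespace Pool.Agent.Results.MP_ec05f5_lc.TraceClassNotReducible

/-- The Borel structure on `B(H)`: the smallest one making all maps `a ↦ ⟪a ξ, η⟫` Borel. -/
noncomputable def opBorel (H : Type) [NormedAddCommGroup H] [InnerProductSpace ℂ H] :
    MeasurableSpace (H →L[ℂ] H) :=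
  ⨆ q : H × H, MeasurableSpace.comap (fun a : H →L[ℂ] H => ⟪a q.1, q.2⟫_ℂ) (borel ℂ)

/-- Trace class operators on a Hilbert space: the trace of `|x| = (x* x)^(1/2)`, that is the sum
of the numbers `⟪e n, |x| (e n)⟫`, is finite in every orthonormal basis `e` indexed by `ℕ`. -/
def IsTraceClass {H : Type} [NormedAddCommGroup H] [InnerProductSpace ℂ H] [CompleteSpace H]
    (x : H →L[ℂ] H) : Prop :=
  ∀ e : HilbertBasis ℕ ℂ H, Summable fun n => (⟪e n, CFC.abs x (e n)⟫_ℂ).re

/-- The relation `ℝ^ℕ / ℓ¹`. -/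
def ModSum (x y : ℕ → ℝ) : Prop := Summable fun n => |x n - y n|

/-- On a separable infinite dimensional complex Hilbert space `H`, the relation of equality modulo
the trace class on `B(H)` is not Borel reducible to `ℝ^ℕ / ℓ¹`. -/
theorem result (H : Type) [NormedAddCommGroup H] [InnerProductSpace ℂ H] [CompleteSpace H]
    [TopologicalSpace.SeparableSpace H] (hH : ¬ FiniteDimensional ℂ H) :
    ¬ ∃ f : (H →L[ℂ] H) → (ℕ → ℝ), @Measurable _ _ (opBorel H) MeasurableSpace.pi f ∧
      ∀ a b : H →L[ℂ] H, IsTraceClass (a - b) ↔ ModSum (f a) (f b) :=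
  H453R3.SC.no_reduction hH

end Pool.Agent.Results.MP_ec05f5_lc.TraceClassNotReducible
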